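import Pool.Agent.Lib.MP_17d4d1_pr.S.Iface

set_option autoImplicit false

/-! # The functional of the problem for three functions -/

namespace Pool.Agent.Lib.MP_17d4d1_pr.S.H64

open Finset Pool.Agent.Lib.MP_17d4d1_pr Pool.Agent.Lib.MP_17d4d1_pr.S

theorem en3 : EN3_S := by
  intro X _ _ ι _ w F a b c hw hab hac hbc
  have hb : b ∉ ({c} : Finset ι) := by simpa using hbc
  have ha : a ∉ ({b, c} : Finset ι) := by simp [hab, hac]
  have hcb : c ≠ b := hbc.symm
  have g1 : ∀ i : ι, G (hh w F) {i} = hh w F {i} := by
    intro i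
    have : ({i} : Finset ι) = insert i ∅ := by simp
    rw [this, G_insert _ (notMem_empty i), conv_empty, G_empty, mul_one, der]
  have g2 : G (hh w F) {b, c} = hh w F {b} * hh w F {c} + hh w F {b, c} := by
    rw [G_insert _ hb, conv]
    have : ({c} : Finset ι).powerset = {∅, {c}} := by
      ext s; simp [subset_singleton_iff]
    rw [this, sum_insert (by simp), sum_singleton]
    simp [der, g1, G_empty]
  have g3 : G (hh w F) {a, b, c} = hh w F {a} * G (hh w F) {b, c} + hh w F {a, b} * hh w F {c}
      + hh w F {a, c} * hh w F {b} + hh w F {a, b, c} := by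
    rw [G_insert _ ha, conv, show ({b, c} : Finset ι) = insert b {c} from rfl,
      sum_powerset_insert hb]
    have : ({c} : Finset ι).powerset = {∅, {c}} := by
      ext s; simp [subset_singleton_iff]
    rw [this, sum_insert (by simp), sum_singleton, sum_insert (by simp), sum_singleton]
    have e1 : (insert b {c} : Finset ι) \ {c} = {b} := by
      rw [insert_sdiff_of_notMem _ (by simpa using hbc)]; simp
    have e2 : (insert b {c} : Finset ι) \ {b} = {c} := by
      ext x; simp only [mem_sdiff, mem_insert, mem_singleton]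
      constructor
      · rintro ⟨h | h, h'⟩
        · exact absurd h h'
        · exact h
      · rintro rfl; exact ⟨Or.inr rfl, hcb⟩
    have e3 : (insert b {c} : Finset ι) \ insert b {c} = ∅ := Finset.sdiff_self _
    simp only [der, sdiff_empty, e1, insert_empty_eq, e2, e3, G_empty, mul_one, g1]
    ring
  have m1 : ∀ i : ι, hh w F {i} = - Ex w (F i) := by
    intro i
    simp [hh, mom, Ex]
  have m2 : ∀ i j : ι, i ≠ j → hh w F {i, j} = - Ex w (F i * F j) := by
    intro i j hij
    simp [hh, mom, Ex, hij]
  have m3 : hh w F {a, b, c} = - (2 * Ex w (F a * F b * F c)) := by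
    simp only [hh, mom, Ex]
    rw [card_insert_of_notMem ha, card_insert_of_notMem hb]
    simp [prod_insert ha, prod_insert hb, mul_assoc]
  rw [En, g3, g2, m1, m1, m1, m2 _ _ hbc, m2 _ _ hab, m2 _ _ hac, m3, E3]
  ring

end Pool.Agent.Lib.MP_17d4d1_pr.S.H64
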