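import Pool.Agent.Lib.MP_17d4d1_pr.S.Iface

set_option autoImplicit false

/-! # Passing to the marginal on the subsets of a set -/

namespace Pool.Agent.Lib.MP_17d4d1_pr.S.H64

open Finset Pool.Agent.Lib.MP_17d4d1_pr Pool.Agent.Lib.MP_17d4d1_pr.S

variable {X : Type} [Fintype X] [DecidableEq X]

/-- The marginal of the weights `w` on the subsets of `Y`. -/
def mw (Y : Finset X) (w : Finset X → ℝ) (B : Finset X) : ℝ :=
  ∑ A : Finset X, if A ∩ Y = B then w A else 0

theorem mw_nonneg {Y : Finset X} {w : Finset X → ℝ} (hw : ∀ A, 0 ≤ w A) (B : Finset X) :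
    0 ≤ mw Y w B :=
  sum_nonneg fun A _ => by split_ifs <;> first | exact hw A | exact le_rfl

theorem Ex_mw (Y : Finset X) (w u : Finset X → ℝ) :
    Ex (mw Y w) u = ∑ A : Finset X, w A * u (A ∩ Y) := by
  unfold Ex mw
  simp only [sum_mul]
  rw [sum_comm]
  refine sum_congr rfl fun A _ => ?_
  rw [sum_eq_single (A ∩ Y)]
  · simp
  · intro B _ hB
    rw [if_neg (Ne.symm hB), zero_mul]
  · intro h
    exact absurd (mem_univ _) h

theorem mw_zero {Y : Finset X} {w : Finset X → ℝ} (hw : ∀ A, 0 ≤ w A) {B : Finset X}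
    (h : mw Y w B = 0) {A : Finset X} (hA : A ∩ Y = B) : w A = 0 := by
  unfold mw at h
  rw [sum_eq_zero_iff_of_nonneg fun A _ => by split_ifs <;> first | exact hw A | exact le_rfl] at h
  have := h A (mem_univ A)
  rwa [if_pos hA] at this

/-- The conditional expectation. -/
noncomputable def mf (Y : Finset X) (w f : Finset X → ℝ) (B : Finset X) : ℝ :=
  mw Y (w * f) B / mw Y w B

theorem mw_mf {Y : Finset X} {w : Finset X → ℝ} (hw : ∀ A, 0 ≤ w A) (f : Finset X → ℝ)
    (B : Finset X) : mw Y w B * mf Y w f B = mw Y (w * f) B := by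
  by_cases h : mw Y w B = 0
  · rw [h, zero_mul]
    refine (sum_eq_zero fun A _ => ?_).symm
    split_ifs with hA
    · rw [Pi.mul_apply, mw_zero hw h hA, zero_mul]
    · rfl
  · rw [mf, mul_div_cancel₀ _ h]

theorem mf_nonneg {Y : Finset X} {w f : Finset X → ℝ} (hw : ∀ A, 0 ≤ w A) (hf : ∀ A, 0 ≤ f A)
    (B : Finset X) : 0 ≤ mf Y w f B :=
  div_nonneg (mw_nonneg (fun A => mul_nonneg (hw A) (hf A)) B) (mw_nonneg hw B)

/-- The conditional weights. -/
noncomputable def fib (Y : Finset X) (w : Finset X → ℝ) (B A : Finset X) : ℝ :=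
  (if A ∩ Y = B then w A else 0) / mw Y w B

theorem fib_nonneg {Y : Finset X} {w : Finset X → ℝ} (hw : ∀ A, 0 ≤ w A) (B A : Finset X) :
    0 ≤ fib Y w B A :=
  div_nonneg (by split_ifs <;> first | exact hw A | exact le_rfl) (mw_nonneg hw B)

theorem Ex_fib (Y : Finset X) (w u : Finset X → ℝ) (B : Finset X) :
    Ex (fib Y w B) u = mf Y w u B := by
  have h : mw Y (w * u) B = ∑ A : Finset X, if A ∩ Y = B then (w * u) A else 0 := rfl
  unfold Ex fib mf
  rw [h, sum_div]
  refine sum_congr rfl fun A _ => ?_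
  split_ifs
  · rw [Pi.mul_apply]; ring
  · simp

theorem fib_sum {Y : Finset X} {w : Finset X → ℝ} {B : Finset X} (h : mw Y w B ≠ 0) :
    ∑ A, fib Y w B A = 1 := by
  unfold fib
  rw [← sum_div]
  exact div_self h

theorem hol_fib {Y : Finset X} {w : Finset X → ℝ} (hw : FKGW w) {B C : Finset X} (hBC : B ⊆ C) :
    Hol (fib Y w B) (fib Y w C) := by
  intro x y
  unfold fib
  rw [div_mul_div_comm, div_mul_div_comm]
  refine div_le_div_of_nonneg_right ?_ (mul_nonneg (mw_nonneg hw.nn B) (mw_nonneg hw.nn C))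
  have n : ∀ (D A : Finset X), 0 ≤ (if A ∩ Y = D then w A else 0) := fun D A => by
    split_ifs <;> first | exact hw.nn A | exact le_rfl
  by_cases hx : x ∩ Y = B
  · by_cases hy : y ∩ Y = C
    · have h1 : (x ⊓ y) ∩ Y = B := by
        rw [← hx]
        ext a
        simp only [inf_eq_inter, mem_inter]
        constructor
        · rintro ⟨⟨h, _⟩, h'⟩; exact ⟨h, h'⟩
        · rintro ⟨h, h'⟩
          have : a ∈ C := hBC (hx ▸ mem_inter.2 ⟨h, h'⟩)
          rw [← hy] at this
          exact ⟨⟨h, (mem_inter.1 this).1⟩, h'⟩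
      have h2 : (x ⊔ y) ∩ Y = C := by
        rw [← hy]
        ext a
        simp only [sup_eq_union, mem_inter, mem_union]
        constructor
        · rintro ⟨h | h, h'⟩
          · have : a ∈ C := hBC (hx ▸ mem_inter.2 ⟨h, h'⟩)
            rw [← hy] at this
            exact mem_inter.1 this
          · exact ⟨h, h'⟩
        · rintro ⟨h, h'⟩; exact ⟨Or.inr h, h'⟩
      rw [if_pos hx, if_pos hy, if_pos h1, if_pos h2]
      exact hw.lsm x y
    · rw [if_neg hy, mul_zero]
      exact mul_nonneg (n _ _) (n _ _)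
  · rw [if_neg hx, zero_mul]
    exact mul_nonneg (n _ _) (n _ _)

/-- The function on the marginal. -/
noncomputable def ff (Y : Finset X) (w f : Finset X → ℝ) (B : Finset X) : ℝ :=
  (univ : Finset (Finset X)).sup' ⟨∅, mem_univ _⟩ fun C => if C ⊆ B then mf Y w f C else 0

theorem ff_inc {Y : Finset X} {w f : Finset X → ℝ} (hw : ∀ A, 0 ≤ w A) (hf : ∀ A, 0 ≤ f A) :
    Inc (ff Y w f) := by
  refine ⟨fun B => ?_, fun B C hBC => ?_⟩
  · refine le_trans ?_ (le_sup' (fun C => if C ⊆ B then mf Y w f C else 0) (mem_univ ∅))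
    split_ifs
    · exact mf_nonneg hw hf _
    · exact le_rfl
  · refine sup'_le _ _ fun D _ => ?_
    refine le_trans ?_ (le_sup' (fun E => if E ⊆ C then mf Y w f E else 0) (mem_univ D))
    by_cases h : D ⊆ B
    · rw [if_pos h, if_pos (h.trans hBC)]
    · rw [if_neg h]
      split_ifs
      · exact mf_nonneg hw hf _
      · exact le_rfl

theorem ff_eq {Y : Finset X} {w f : Finset X → ℝ} (hw : FKGW w) (hf : Inc f) {B : Finset X}
    (hB : mw Y w B ≠ 0) : ff Y w f B = mf Y w f B := by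
  refine le_antisymm (sup'_le _ _ fun C _ => ?_) ?_
  · split_ifs with h
    · by_cases hC : mw Y w C = 0
      · have : mf Y w f C = 0 := by rw [mf, hC, div_zero]
        rw [this]
        exact mf_nonneg hw.nn hf.nn B
      · rw [← Ex_fib, ← Ex_fib]
        exact Ex_le (fib_nonneg hw.nn C) (fib_nonneg hw.nn B) (fib_sum hC) (fib_sum hB)
          (hol_fib hw h) hf.nn hf.mono
    · exact mf_nonneg hw.nn hf.nn B
  · have := le_sup' (fun C => if C ⊆ B then mf Y w f C else 0) (mem_univ B)
    simp only [Subset.refl, if_true] at this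
    exact this

theorem mw_ff {Y : Finset X} {w f : Finset X → ℝ} (hw : FKGW w) (hf : Inc f) (B : Finset X) :
    mw Y w B * ff Y w f B = mw Y (w * f) B := by
  by_cases hB : mw Y w B = 0
  · rw [← mw_mf hw.nn, hB, zero_mul, zero_mul]
  · rw [ff_eq hw hf hB, mw_mf hw.nn]

theorem Ex_ff {Y : Finset X} {w f k : Finset X → ℝ} (hw : FKGW w) (hf : Inc f)
    (hk : ∀ A, k (A ∩ Y) = k A) : Ex (mw Y w) (ff Y w f * k) = Ex w (f * k) := by
  have h1 : Ex (mw Y w) (ff Y w f * k) = Ex (mw Y (w * f)) k := by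
    unfold Ex
    refine sum_congr rfl fun B _ => ?_
    rw [Pi.mul_apply, ← mul_assoc, mw_ff hw hf]
  rw [h1, Ex_mw, Ex]
  refine sum_congr rfl fun A _ => ?_
  rw [hk, Pi.mul_apply, Pi.mul_apply]
  ring

theorem Ex_ff_mul {Y : Finset X} {w f g k : Finset X → ℝ} (hw : FKGW w) (hf : Inc f) (hg : Inc g)
    (hk0 : ∀ A, 0 ≤ k A) (hk : ∀ A, k (A ∩ Y) = k A) :
    Ex (mw Y w) (ff Y w f * ff Y w g * k) ≤ Ex w (f * g * k) := by
  have h1 : Ex w (f * g * k) = Ex (mw Y (w * (f * g))) k := by
    rw [Ex_mw, Ex]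
    refine sum_congr rfl fun A _ => ?_
    rw [hk, Pi.mul_apply, Pi.mul_apply, Pi.mul_apply, Pi.mul_apply]
    ring
  rw [h1]
  unfold Ex
  refine sum_le_sum fun B _ => ?_
  rw [Pi.mul_apply, ← mul_assoc]
  refine mul_le_mul_of_nonneg_right ?_ (hk0 B)
  rw [Pi.mul_apply, ← mw_mf hw.nn]
  by_cases hB : mw Y w B = 0
  · rw [hB, zero_mul, zero_mul]
  · refine mul_le_mul_of_nonneg_left ?_ (mw_nonneg hw.nn B)
    rw [ff_eq hw hf hB, ff_eq hw hg hB, ← Ex_fib, ← Ex_fib, ← Ex_fib]
    exact Ex_fkg (fib_nonneg hw.nn B) (fib_sum hB) (hol_fib hw (Subset.refl B)) hf.nn hf.mono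
      hg.nn hg.mono

theorem mw_fkgw {Y : Finset X} {w : Finset X → ℝ} (hw : FKGW w) : FKGW (mw Y w) := by
  refine ⟨mw_nonneg hw.nn, ?_, fun B C => ?_⟩
  · have := Ex_mw Y w (fun _ => 1)
    simp only [Ex, mul_one] at this
    rw [this, hw.sum]
  · refine four_functions_theorem_univ (fun A : Finset X => if A ∩ Y = B then w A else 0)
      (fun A : Finset X => if A ∩ Y = C then w A else 0)
      (fun A : Finset X => if A ∩ Y = B ⊓ C then w A else 0)
      (fun A : Finset X => if A ∩ Y = B ⊔ C then w A else 0) ?_ ?_ ?_ ?_ ?_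
    · intro A; simp only [Pi.zero_apply]; split_ifs <;> first | exact hw.nn A | exact le_rfl
    · intro A; simp only [Pi.zero_apply]; split_ifs <;> first | exact hw.nn A | exact le_rfl
    · intro A; simp only [Pi.zero_apply]; split_ifs <;> first | exact hw.nn A | exact le_rfl
    · intro A; simp only [Pi.zero_apply]; split_ifs <;> first | exact hw.nn A | exact le_rfl
    · intro x y
      have n : ∀ (D A : Finset X), 0 ≤ (if A ∩ Y = D then w A else 0) := fun D A => by
        split_ifs <;> first | exact hw.nn A | exact le_rfl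
      by_cases hx : x ∩ Y = B
      · by_cases hy : y ∩ Y = C
        · have h1 : (x ⊓ y) ∩ Y = B ⊓ C := by
            rw [← hx, ← hy]
            ext a
            simp only [inf_eq_inter, mem_inter]
            tauto
          have h2 : (x ⊔ y) ∩ Y = B ⊔ C := by
            rw [← hx, ← hy]
            ext a
            simp only [sup_eq_union, mem_inter, mem_union]
            tauto
          rw [if_pos hx, if_pos hy, if_pos h1, if_pos h2]
          exact hw.lsm x y
        · rw [if_neg hy, mul_zero]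
          exact mul_nonneg (n _ _) (n _ _)
      · rw [if_neg hx, zero_mul]
        exact mul_nonneg (n _ _) (n _ _)

theorem marg : MARG_S := by
  intro X _ _ Y w f g h hw hf hg hh hY
  refine ⟨mw Y w, ff Y w f, ff Y w g, mw_fkgw hw, ?_, ff_inc hw.nn hf.nn, ff_inc hw.nn hg.nn, ?_⟩
  · intro A hA
    by_contra hn
    refine hA (sum_eq_zero fun B _ => if_neg fun hB => hn ?_)
    rw [← hB]
    exact inter_subset_right
  · have hY' : ∀ A, (1 - h) (A ∩ Y) = (1 - h) A := fun A => by
      simp only [Pi.sub_apply, Pi.one_apply, hY]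
    have h1 : ∀ u : Finset X → ℝ, Inc u → Ex (mw Y w) (ff Y w u) = Ex w u := fun u hu => by
      have := Ex_ff (Y := Y) (k := 1) hw hu (fun _ => rfl)
      simpa only [mul_one] using this
    have hh0 : ∀ A, 0 ≤ h A := fun A => by rcases hh.val A with e | e <;> rw [e] <;> norm_num
    have hh1 : ∀ A, h A ≤ 1 := fun A => by rcases hh.val A with e | e <;> rw [e] <;> norm_num
    have h2 : Ex (mw Y w) h = Ex w h := by
      rw [Ex_mw, Ex]
      exact sum_congr rfl fun A _ => by rw [hY]
    have h3 : Ex w h ≤ 1 := by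
      rw [← hw.sum, Ex]
      exact sum_le_sum fun A _ => mul_le_of_le_one_right (hw.nn A) (hh1 A)
    have h4 := Ex_ff_mul (Y := Y) hw hf hg hh0 hY
    unfold LS
    rw [h1 f hf, h1 g hg, h2, Ex_ff hw hf hY', Ex_ff hw hg hY']
    have h5 := mul_le_mul_of_nonneg_left h4 (sub_nonneg.2 h3)
    linarith

end Pool.Agent.Lib.MP_17d4d1_pr.S.H64
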